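import Pool.Agent.N173.BG.Stm

/-!
MSB/REP (helper31 for the project of helper173): the conditions of many characters, expressed by
`k + 1` characters.
-/

set_option autoImplicit false


namespace Pool.Agent.N31.BG

open Finset Pool.Agent.N173.BG

lemma val_mul_mod {N : ℕ} [NeZero N] (x cc : ZMod N) (e : ℤ) (he : (e : ZMod N) = cc) :
    ∃ z : ℤ, ((cc * x).val : ℝ) / N = e * x.val / N + z := by
  have hN : (N : ℝ) ≠ 0 := by exact_mod_cast NeZero.ne N
  have h0 : ((((cc * x).val : ℤ) - e * (x.val : ℤ) : ℤ) : ZMod N) = 0 := by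
    push_cast
    rw [ZMod.natCast_zmod_val, ZMod.natCast_zmod_val, he, sub_self]
  obtain ⟨z, hz⟩ := (ZMod.intCast_zmod_eq_zero_iff_dvd _ N).mp h0
  refine ⟨z, ?_⟩
  have hz' : ((cc * x).val : ℝ) - e * (x.val : ℝ) = N * z := by exact_mod_cast hz
  field_simp
  linarith

theorem t_REP (h : S_GEN) : S_REP := by
  intro N _ k Λ ι _ g n m hn hrel
  have hN : (N : ℝ) ≠ 0 := by exact_mod_cast NeZero.ne N
  have hq : ∀ i, ∃ q : ℤ, n i * ((g i).val : ℤ) = ∑ l, m i l * ((Λ l).val : ℤ) + N * q := by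
    intro i
    have h0 : ((n i * ((g i).val : ℤ) - ∑ l, m i l * ((Λ l).val : ℤ) : ℤ) : ZMod N) = 0 := by
      push_cast
      simp only [ZMod.natCast_zmod_val]
      rw [hrel i, sub_self]
    obtain ⟨q, hq⟩ := (ZMod.intCast_zmod_eq_zero_iff_dvd _ N).mp h0
    exact ⟨q, by linarith⟩
  choose q hq using hq
  have hn0 : ∀ i, (n i : ℝ) ≠ 0 := by
    intro i
    have : n i ≠ 0 := by have := hn i; omega
    exact_mod_cast this
  have hqR : ∀ i, (n i : ℝ) * (g i).val = ∑ l, (m i l : ℝ) * (Λ l).val + N * q i := by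
    intro i
    exact_mod_cast hq i
  set c : ι → Fin (k + 1) → ℚ := fun i => Fin.cons ((q i : ℚ) / n i) (fun l => -(m i l : ℚ) / n i) with hc
  obtain ⟨a, z, haz⟩ := h ι (k + 1) c
  set W : Fin (k + 1) → Fin k → ℝ := fun j l => ∑ i, (a j i : ℝ) * (m i l / n i) with hW
  refine ⟨fun j => ∑ i, (a j i : ZMod N) * g i - ∑ l, ((⌊W j l⌋ : ℤ) : ZMod N) * Λ l,
    fun j l => Int.fract (W j l), fun j l => ⟨Int.fract_nonneg _, (Int.fract_lt_one _).le⟩, ?_⟩
  intro x v hv
  have hM : ∀ l, ∃ M : ℤ, v l = ((Λ l).val : ℝ) * x.val / N + M := by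
    intro l
    obtain ⟨z1, h1⟩ := hv l
    obtain ⟨z2, h2⟩ := val_mul_mod x (Λ l) ((Λ l).val : ℤ) (by push_cast; rw [ZMod.natCast_zmod_val])
    refine ⟨z2 + z1, ?_⟩
    rw [h1, h2]
    push_cast
    ring
  choose M hM using hM
  set P : ι → ℝ := fun i => ((q i : ℝ) * x.val - ∑ l, (m i l : ℝ) * M l) / n i with hP
  set y : Fin (k + 1) → ℤ := Fin.cons (x.val : ℤ) M with hy
  have hcy : ∀ i, ((∑ l, c i l * (y l : ℚ) : ℚ) : ℝ) = P i := by
    intro i
    rw [Fin.sum_univ_succ]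
    simp only [hc, hy, hP, Fin.cons_zero, Fin.cons_succ]
    push_cast
    rw [sub_div, Finset.sum_div, sub_eq_add_neg, ← Finset.sum_neg_distrib]
    congr 1
    · ring
    · refine Finset.sum_congr rfl fun l _ => ?_
      ring
  -- the characters `g i`
  have hA : ∀ i, ∃ z : ℤ, ((g i * x).val : ℝ) / N - (1 / (n i : ℝ)) * ∑ l, (m i l : ℝ) * v l = P i + z := by
    intro i
    obtain ⟨z1, h1⟩ := val_mul_mod x (g i) ((g i).val : ℤ) (by push_cast; rw [ZMod.natCast_zmod_val])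
    refine ⟨z1, ?_⟩
    rw [h1]
    have h2 : ∑ l, (m i l : ℝ) * v l = (∑ l, (m i l : ℝ) * (Λ l).val) * (x.val / N) + ∑ l, (m i l : ℝ) * M l := by
      rw [Finset.sum_mul, ← Finset.sum_add_distrib]
      refine Finset.sum_congr rfl fun l _ => ?_
      rw [hM l]; ring
    have h3 : ∑ l, (m i l : ℝ) * (Λ l).val = n i * (g i).val - N * q i := by
      rw [hqR i]; ring
    rw [h2, h3, hP]
    have := hn0 i
    push_cast
    field_simp
    ring
  -- real combination
  have hG : ∀ i, ((g i).val : ℝ) * x.val / N - (1 / (n i : ℝ)) * ∑ l, (m i l : ℝ) * v l = P i := by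
    intro i
    have h2 : ∑ l, (m i l : ℝ) * v l = (∑ l, (m i l : ℝ) * (Λ l).val) * (x.val / N) + ∑ l, (m i l : ℝ) * M l := by
      rw [Finset.sum_mul, ← Finset.sum_add_distrib]
      refine Finset.sum_congr rfl fun l _ => ?_
      rw [hM l]; ring
    have h3 : ∑ l, (m i l : ℝ) * (Λ l).val = n i * (g i).val - N * q i := by
      rw [hqR i]; ring
    rw [h2, h3, hP]
    have := hn0 i
    field_simp
    ring
  have hWv : ∀ j, ∑ l, W j l * v l = ∑ i, (a j i : ℝ) * ((1 / (n i : ℝ)) * ∑ l, (m i l : ℝ) * v l) := by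
    intro j
    simp only [hW, Finset.sum_mul, Finset.mul_sum]
    rw [Finset.sum_comm]
    refine Finset.sum_congr rfl fun i _ => Finset.sum_congr rfl fun l _ => ?_
    ring
  have hB : ∀ j, ∃ z : ℤ, (((∑ i, (a j i : ZMod N) * g i - ∑ l, ((⌊W j l⌋ : ℤ) : ZMod N) * Λ l) * x).val : ℝ) / N -
      ∑ l, Int.fract (W j l) * v l = ∑ i, (a j i : ℝ) * P i + z := by
    intro j
    obtain ⟨z1, h1⟩ := val_mul_mod x (∑ i, (a j i : ZMod N) * g i - ∑ l, ((⌊W j l⌋ : ℤ) : ZMod N) * Λ l)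
      (∑ i, a j i * ((g i).val : ℤ) - ∑ l, ⌊W j l⌋ * ((Λ l).val : ℤ)) (by
        push_cast
        simp only [ZMod.natCast_zmod_val])
    refine ⟨z1 + ∑ l, ⌊W j l⌋ * M l, ?_⟩
    rw [h1]
    have h2 : ∑ l, Int.fract (W j l) * v l = ∑ l, W j l * v l -
        ((∑ l, (⌊W j l⌋ : ℝ) * (Λ l).val) * (x.val / N) + ∑ l, (⌊W j l⌋ : ℝ) * M l) := by
      rw [Finset.sum_mul, ← Finset.sum_add_distrib, ← Finset.sum_sub_distrib]
      refine Finset.sum_congr rfl fun l _ => ?_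
      rw [Int.fract, hM l]; ring
    have h3 : ∑ i, (a j i : ℝ) * P i = (∑ i, (a j i : ℝ) * (g i).val) * (x.val / N) - ∑ l, W j l * v l := by
      rw [hWv j, Finset.sum_mul, ← Finset.sum_sub_distrib]
      refine Finset.sum_congr rfl fun i _ => ?_
      rw [← hG i]; ring
    rw [h2, h3]
    push_cast
    ring
  have hby : ∀ j, ((∑ l, ((∑ i, (a j i : ℚ) * c i l) + z j l) * (y l : ℚ) : ℚ) : ℝ) =
      ∑ i, (a j i : ℝ) * P i + ((∑ l, z j l * y l : ℤ) : ℝ) := by
    intro j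
    have e1 : ∑ l, ((∑ i, (a j i : ℚ) * c i l) + z j l) * (y l : ℚ) =
        ∑ i, (a j i : ℚ) * (∑ l, c i l * (y l : ℚ)) + ((∑ l, z j l * y l : ℤ) : ℚ) := by
      push_cast
      simp only [add_mul, Finset.sum_add_distrib, Finset.sum_mul, Finset.mul_sum]
      congr 1
      rw [Finset.sum_comm]
      refine Finset.sum_congr rfl fun i _ => Finset.sum_congr rfl fun l _ => ?_
      ring
    rw [e1, Rat.cast_add, Rat.cast_sum]
    congr 1
    · refine Finset.sum_congr rfl fun i _ => ?_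
      rw [Rat.cast_mul, hcy i]; push_cast; ring
  constructor
  · intro hj i
    have h1 : ∀ j, ∃ w : ℤ, ∑ l, ((∑ i, (a j i : ℚ) * c i l) + z j l) * (y l : ℚ) = w := by
      intro j
      obtain ⟨z1, hz1⟩ := hj j
      obtain ⟨z2, hz2⟩ := hB j
      refine ⟨z1 - z2 + ∑ l, z j l * y l, ?_⟩
      have h2 := hby j
      have h3 : ∑ i, (a j i : ℝ) * P i = z1 - z2 := by
        have := hz2.symm.trans hz1
        linarith
      rw [h3] at h2
      have h4 : ((∑ l, ((∑ i, (a j i : ℚ) * c i l) + z j l) * (y l : ℚ) : ℚ) : ℝ) =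
          (((z1 - z2 + ∑ l, z j l * y l : ℤ) : ℚ) : ℝ) := by
        rw [h2]; push_cast; ring
      exact_mod_cast h4
    obtain ⟨w, hw⟩ := haz y h1 i
    obtain ⟨z1, hz1⟩ := hA i
    refine ⟨w + z1, ?_⟩
    rw [hz1, ← hcy i, hw]
    push_cast
    ring
  · intro hi j
    have h1 : ∀ i, ∃ w : ℤ, P i = w := by
      intro i
      obtain ⟨z1, hz1⟩ := hi i
      obtain ⟨z2, hz2⟩ := hA i
      refine ⟨z1 - z2, ?_⟩
      have := hz2.symm.trans hz1
      push_cast
      linarith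
    choose w hw using h1
    obtain ⟨z1, hz1⟩ := hB j
    refine ⟨∑ i, a j i * w i + z1, ?_⟩
    rw [hz1]
    push_cast
    simp only [hw]

end Pool.Agent.N31.BG
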